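import Pool.Agent.Hhelper67.Johnson.Main
import Pool.Agent.LDJ.Final

/-!
Both regimes of the question on the logarithmic density of the Johnson filtration.

(a) For every `g ≥ 2` and every finite generating set `S` of the mapping class group the
logarithmic density of the `m`-th Johnson term exists, is the same number `d(S)` for all `m ≥ 1`,
and lies in `[1/2, 1]`; the numbers `d(S)` are dense in `[1/2, 1]`, even if `S` has to contain a
given finite generating set.

(b) For every `t` in `[1/2, 1]` and the stated families of finite generating sets `S_g` these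
densities tend to `t` as the genus tends to infinity, for every `m ≥ 1`, with an explicit rate.
-/

namespace Pool.Agent.Results.MP_64eec5_gt.BothRegimes

open Pool.Agent.Hhelper67.Johnson

/-- If the logarithmic density exists, the lower logarithmic density is equal to it. -/
private lemma lower_eq {g : ℕ} {S : Finset (MCG g)} {A : Set (MCG g)} {d : ℝ}
    (h : Filter.Tendsto (logRatio S A) Filter.atTop (nhds d)) : lowerLogDensity S A = d :=
  h.liminf_eq

/-- If the logarithmic density exists, the upper logarithmic density is equal to it. -/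
private lemma upper_eq {g : ℕ} {S : Finset (MCG g)} {A : Set (MCG g)} {d : ℝ}
    (h : Filter.Tendsto (logRatio S A) Filter.atTop (nhds d)) : upperLogDensity S A = d :=
  h.limsup_eq

/-- The densities for the explicit sets are within the explicit error of `t`. -/
private lemma near {n : ℕ} (X : Finset (MCG (n + 2)))
    (hX : Subgroup.closure (X : Set (MCG (n + 2))) = ⊤) {M : ℕ} (hM : 2 ≤ M) {t : ℝ}
    (ht : 1 / 2 ≤ t) (ht1 : t ≤ 1) :
    ∃ d : ℝ, (∀ m : ℕ, 1 ≤ m →
      Filter.Tendsto (logRatio (genSet n X M ⌈(M : ℝ) ^ t⌉₊)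
        (johnson (n + 2) m : Set (MCG (n + 2)))) Filter.atTop (nhds d)) ∧
      |d - t| ≤ (1 + Real.log (2 * X.card + 8)) / Real.log M := by
  have hgen : Subgroup.closure
      ((genSet n X M ⌈(M : ℝ) ^ t⌉₊ : Finset (MCG (n + 2))) : Set (MCG (n + 2))) = ⊤ := by
    rw [eq_top_iff, ← hX]
    exact Subgroup.closure_mono (by exact_mod_cast mem_genSet_X)
  obtain ⟨d, -, -, hd⟩ := Pool.Agent.LDJ.final (n + 2) (by omega) _ hgen
  refine ⟨d, hd, ?_⟩
  have hb := density_bounds (n := n) X hM ht ht1 (le_refl 1)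
  rw [lower_eq (hd 1 le_rfl), upper_eq (hd 1 le_rfl)] at hb
  have hM1 : (1 : ℝ) < M := by exact_mod_cast hM
  have hlogM : 0 < Real.log M := Real.log_pos hM1
  have h1 : Real.log (2 * X.card + 8) / Real.log M ≤
      (1 + Real.log (2 * X.card + 8)) / Real.log M :=
    div_le_div_of_nonneg_right (by linarith) hlogM.le
  rw [abs_le]
  constructor <;> linarith [hb.1, hb.2]

theorem result :
    (∀ g : ℕ, 2 ≤ g →
      (∀ S : Finset (MCG g), Subgroup.closure (S : Set (MCG g)) = ⊤ →
        ∃ d : ℝ, 1 / 2 ≤ d ∧ d ≤ 1 ∧ ∀ m : ℕ, 1 ≤ m →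
          Filter.Tendsto (logRatio S (johnson g m : Set (MCG g))) Filter.atTop (nhds d)) ∧
      (∀ X : Finset (MCG g), Subgroup.closure (X : Set (MCG g)) = ⊤ →
        ∀ t : ℝ, 1 / 2 ≤ t → t ≤ 1 → ∀ ε : ℝ, 0 < ε →
        ∃ S : Finset (MCG g), X ⊆ S ∧ ∃ d : ℝ, |d - t| ≤ ε ∧ ∀ m : ℕ, 1 ≤ m →
          Filter.Tendsto (logRatio S (johnson g m : Set (MCG g))) Filter.atTop (nhds d))) ∧
    (∀ t : ℝ, 1 / 2 ≤ t → t ≤ 1 →
      ∀ X : (n : ℕ) → Finset (MCG (n + 2)),
        (∀ n, Subgroup.closure (X n : Set (MCG (n + 2))) = ⊤) →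
      ∀ M : ℕ → ℕ, (∀ n, 2 ≤ M n) →
      Filter.Tendsto (fun n => Real.log (2 * (X n).card + 8) / Real.log (M n))
        Filter.atTop (nhds 0) →
      ∃ d : ℕ → ℝ, (∀ n m : ℕ, 1 ≤ m →
          Filter.Tendsto (logRatio (genSet n (X n) (M n) ⌈(M n : ℝ) ^ t⌉₊)
            (johnson (n + 2) m : Set (MCG (n + 2)))) Filter.atTop (nhds (d n))) ∧
        (∀ n, |d n - t| ≤ (1 + Real.log (2 * (X n).card + 8)) / Real.log (M n)) ∧
        Filter.Tendsto d Filter.atTop (nhds t)) := by
  refine ⟨fun g hg => ⟨fun S hS => Pool.Agent.LDJ.final g hg S hS, ?_⟩, ?_⟩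
  · intro X hX t ht ht1 ε hε
    obtain ⟨n, rfl⟩ : ∃ n, g = n + 2 := ⟨g - 2, by omega⟩
    have hX0 : (0 : ℝ) ≤ X.card := Nat.cast_nonneg _
    have hlogC : 0 < Real.log (2 * X.card + 8) := Real.log_pos (by linarith)
    set M : ℕ := ⌈Real.exp ((1 + Real.log (2 * X.card + 8)) / ε)⌉₊ + 2 with hM
    have hM2 : 2 ≤ M := by omega
    have hM1 : (1 : ℝ) < M := by exact_mod_cast hM2
    have hlogM : 0 < Real.log M := Real.log_pos hM1
    obtain ⟨d, hd, hdt⟩ := near X hX hM2 ht ht1
    refine ⟨_, mem_genSet_X, d, hdt.trans ?_, hd⟩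
    rw [div_le_iff₀ hlogM]
    have h1 : (1 + Real.log (2 * X.card + 8)) / ε ≤ Real.log M := by
      rw [Real.le_log_iff_exp_le (by positivity)]
      have h2 := Nat.le_ceil (Real.exp ((1 + Real.log (2 * X.card + 8)) / ε))
      rw [hM]
      push_cast
      linarith
    rw [div_le_iff₀ hε] at h1
    linarith
  · intro t ht ht1 X hX M hM hlim
    choose d hd hdt using fun n => near (X n) (hX n) (hM n) ht ht1
    refine ⟨d, hd, hdt, ?_⟩
    have h1 : Filter.Tendsto (fun n => 2 * (Real.log (2 * (X n).card + 8) / Real.log (M n)))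
        Filter.atTop (nhds 0) := by
      simpa using hlim.const_mul 2
    have h2 : Filter.Tendsto (fun n => |d n - t|) Filter.atTop (nhds 0) := by
      refine squeeze_zero (fun n => abs_nonneg _) (fun n => (hdt n).trans ?_) h1
      have hX0 : (0 : ℝ) ≤ (X n).card := Nat.cast_nonneg _
      have h3 : 1 ≤ Real.log (2 * (X n).card + 8) := by
        rw [Real.le_log_iff_exp_le (by positivity)]
        have := Real.exp_one_lt_d9
        linarith
      have h4 : 0 < Real.log (M n) := Real.log_pos (by exact_mod_cast hM n)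
      rw [← mul_div_assoc]
      apply div_le_div_of_nonneg_right (by linarith) h4.le
    rw [tendsto_iff_norm_sub_tendsto_zero]
    simpa [Real.norm_eq_abs] using h2

end Pool.Agent.Results.MP_64eec5_gt.BothRegimes
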