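import Pool.Agent.Hhelper67.Johnson.Main

/-!
Every value in `[1/2, 1]` is, up to an arbitrarily small error and uniformly in `m`, the
logarithmic density of the `m`-th term of the Johnson filtration for a suitable finite
generating set containing a given one.
-/

namespace Pool.Agent.Results.MP_64eec5_gt.DenseSpectrum

open Pool.Agent.Hhelper67.Johnson

theorem result : ∀ g : ℕ, 2 ≤ g → ∀ X : Finset (MCG g),
    Subgroup.closure (X : Set (MCG g)) = ⊤ →
    ∀ t : ℝ, 1 / 2 ≤ t → t ≤ 1 → ∀ ε : ℝ, 0 < ε →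
    ∃ S : Finset (MCG g), X ⊆ S ∧ Subgroup.closure (S : Set (MCG g)) = ⊤ ∧
      ∀ m : ℕ, 1 ≤ m →
        t - ε ≤ lowerLogDensity S (johnson g m : Set (MCG g)) ∧
        upperLogDensity S (johnson g m : Set (MCG g)) ≤ t + ε := by
  intro g hg X hX t ht ht1 ε hε
  obtain ⟨n, rfl⟩ : ∃ n, g = n + 2 := ⟨g - 2, by omega⟩
  have hX0 : (0 : ℝ) ≤ X.card := Nat.cast_nonneg _
  have hlogC : 0 < Real.log (2 * X.card + 8) := Real.log_pos (by linarith)
  set M : ℕ := ⌈Real.exp ((1 + Real.log (2 * X.card + 8)) / ε)⌉₊ + 2 with hM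
  have hM2 : 2 ≤ M := by omega
  have hM1 : (1 : ℝ) < M := by exact_mod_cast hM2
  have hlogM : 0 < Real.log M := Real.log_pos hM1
  have hbig : (1 + Real.log (2 * X.card + 8)) / Real.log M ≤ ε := by
    rw [div_le_iff₀ hlogM]
    have h1 : (1 + Real.log (2 * X.card + 8)) / ε ≤ Real.log M := by
      rw [Real.le_log_iff_exp_le (by positivity)]
      have h2 := Nat.le_ceil (Real.exp ((1 + Real.log (2 * X.card + 8)) / ε))
      rw [hM]
      push_cast
      linarith
    rw [div_le_iff₀ hε] at h1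
    linarith
  have hbig' : Real.log (2 * X.card + 8) / Real.log M ≤ ε := by
    refine le_trans ?_ hbig
    apply div_le_div_of_nonneg_right (by linarith) hlogM.le
  refine ⟨genSet n X M ⌈(M : ℝ) ^ t⌉₊, mem_genSet_X, ?_, ?_⟩
  · rw [eq_top_iff, ← hX]
    exact Subgroup.closure_mono (by exact_mod_cast mem_genSet_X)
  · intro m hm
    obtain ⟨h1, h2⟩ := density_bounds (n := n) X hM2 ht ht1 hm
    exact ⟨by linarith, by linarith⟩

end Pool.Agent.Results.MP_64eec5_gt.DenseSpectrum
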