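import Pool.Agent.Hhelper67.Johnson.Main

/-!
The logarithmic densities of the Johnson terms for explicit families of generating sets,
as the genus tends to infinity.
-/

namespace Pool.Agent.Results.MP_64eec5_gt.FamilyLimits

open Pool.Agent.Hhelper67.Johnson

theorem result : ∀ t : ℝ, 1 / 2 ≤ t → t ≤ 1 →
    ∀ X : (n : ℕ) → Finset (MCG (n + 2)), ∀ M : ℕ → ℕ, (∀ n, 2 ≤ M n) →
    Filter.Tendsto (fun n => Real.log (2 * (X n).card + 8) / Real.log (M n))
      Filter.atTop (nhds 0) →
    ∀ m : ℕ, 1 ≤ m →
      Filter.Tendsto (fun n => lowerLogDensity (genSet n (X n) (M n) ⌈(M n : ℝ) ^ t⌉₊)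
        (johnson (n + 2) m : Set (MCG (n + 2)))) Filter.atTop (nhds t) ∧
      Filter.Tendsto (fun n => upperLogDensity (genSet n (X n) (M n) ⌈(M n : ℝ) ^ t⌉₊)
        (johnson (n + 2) m : Set (MCG (n + 2)))) Filter.atTop (nhds t) := by
  intro t ht ht1 X M hM hlim m hm
  have hb := fun n => density_bounds (n := n) (X n) (hM n) ht ht1 hm
  have hle : ∀ n, lowerLogDensity (genSet n (X n) (M n) ⌈(M n : ℝ) ^ t⌉₊)
        (johnson (n + 2) m : Set (MCG (n + 2))) ≤
      upperLogDensity (genSet n (X n) (M n) ⌈(M n : ℝ) ^ t⌉₊)
        (johnson (n + 2) m : Set (MCG (n + 2))) := by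
    intro n
    classical
    apply Filter.liminf_le_limsup
    · exact ⟨1, Filter.eventually_map.mpr (Filter.Eventually.of_forall
        fun r => logRatio_le_one _ _ r)⟩
    · exact ⟨0, Filter.eventually_map.mpr (Filter.Eventually.of_forall
        fun r => logRatio_nonneg _ _ r)⟩
  have hlow : Filter.Tendsto (fun n => t - (1 + Real.log (2 * (X n).card + 8)) / Real.log (M n))
      Filter.atTop (nhds t) := by
    have h1 : Filter.Tendsto (fun n => 2 * (Real.log (2 * (X n).card + 8) / Real.log (M n)))
        Filter.atTop (nhds 0) := by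
      simpa using hlim.const_mul 2
    have h2 : Filter.Tendsto (fun n => (1 + Real.log (2 * (X n).card + 8)) / Real.log (M n))
        Filter.atTop (nhds 0) := by
      refine squeeze_zero (fun n => ?_) (fun n => ?_) h1
      · have hX0 : (0 : ℝ) ≤ (X n).card := Nat.cast_nonneg _
        have h3 : 0 < Real.log (2 * (X n).card + 8) := Real.log_pos (by linarith)
        have h4 : 0 < Real.log (M n) := Real.log_pos (by exact_mod_cast hM n)
        positivity
      · have hX0 : (0 : ℝ) ≤ (X n).card := Nat.cast_nonneg _
        have h3 : 1 ≤ Real.log (2 * (X n).card + 8) := by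
          rw [Real.le_log_iff_exp_le (by positivity)]
          have := Real.exp_one_lt_d9
          linarith
        have h4 : 0 < Real.log (M n) := Real.log_pos (by exact_mod_cast hM n)
        rw [← mul_div_assoc]
        apply div_le_div_of_nonneg_right (by linarith) h4.le
    simpa using tendsto_const_nhds.sub h2
  have hup : Filter.Tendsto (fun n => t + Real.log (2 * (X n).card + 8) / Real.log (M n))
      Filter.atTop (nhds t) := by
    simpa using tendsto_const_nhds.add hlim
  constructor
  · exact tendsto_of_tendsto_of_tendsto_of_le_of_le hlow hup (fun n => (hb n).1)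
      (fun n => (hle n).trans (hb n).2)
  · exact tendsto_of_tendsto_of_tendsto_of_le_of_le hlow hup (fun n => (hb n).1.trans (hle n))
      (fun n => (hb n).2)

end Pool.Agent.Results.MP_64eec5_gt.FamilyLimits
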