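import Pool.Agent.LDJ.Final

/-!
For every `g ≥ 2` and every finite generating set `S` of the mapping class group, the logarithmic
density of the `m`-th term of the Johnson filtration exists for every `m ≥ 1`, does not depend on
`m`, and is at least `1/2`.
-/

namespace Pool.Agent.Results.MP_64eec5_gt.LogDensity

open Pool.Agent.Hhelper67.Johnson

theorem result : ∀ g : ℕ, 2 ≤ g → ∀ S : Finset (MCG g),
    Subgroup.closure (S : Set (MCG g)) = ⊤ →
    ∃ d : ℝ, 1 / 2 ≤ d ∧ d ≤ 1 ∧ ∀ m : ℕ, 1 ≤ m →
      Filter.Tendsto (logRatio S (johnson g m : Set (MCG g))) Filter.atTop (nhds d) :=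
  fun g hg S hS => Pool.Agent.LDJ.final g hg S hS

end Pool.Agent.Results.MP_64eec5_gt.LogDensity
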